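import Mathlib

set_option autoImplicit false

namespace Pool.Agent.H550Z.AntiNil

open Matrix

/-- The ten dimensional algebra `V ⊕ Λ⁰ ⊕ Λ¹ ⊕ Λ²`. -/
def Alg : Type := (Fin 3 → ℚ) × ℚ × (Fin 3 → ℚ) × (Fin 3 → ℚ)

instance : AddCommGroup Alg :=
  inferInstanceAs (AddCommGroup ((Fin 3 → ℚ) × ℚ × (Fin 3 → ℚ) × (Fin 3 → ℚ)))

instance : Module ℚ Alg :=
  inferInstanceAs (Module ℚ ((Fin 3 → ℚ) × ℚ × (Fin 3 → ℚ) × (Fin 3 → ℚ)))

def mk (v : Fin 3 → ℚ) (a : ℚ) (u w : Fin 3 → ℚ) : Alg := (v, a, u, w)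

def pv (x : Alg) : Fin 3 → ℚ := x.1
def pa (x : Alg) : ℚ := x.2.1
def pu (x : Alg) : Fin 3 → ℚ := x.2.2.1
def pw (x : Alg) : Fin 3 → ℚ := x.2.2.2

theorem ext' {x y : Alg} (h1 : pv x = pv y) (h2 : pa x = pa y) (h3 : pu x = pu y)
    (h4 : pw x = pw y) : x = y :=
  Prod.ext h1 (Prod.ext h2 (Prod.ext h3 h4))

instance : Mul Alg :=
  ⟨fun x y => mk 0 (pv x ⬝ᵥ pw y - pv y ⬝ᵥ pw x) (pa y • pv x - pa x • pv y)
    (crossProduct (pv x) (pu y) - crossProduct (pv y) (pu x))⟩

@[simp] theorem pv_mul (x y : Alg) : pv (x * y) = 0 := rfl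
@[simp] theorem pa_mul (x y : Alg) : pa (x * y) = pv x ⬝ᵥ pw y - pv y ⬝ᵥ pw x := rfl
@[simp] theorem pu_mul (x y : Alg) : pu (x * y) = pa y • pv x - pa x • pv y := rfl
@[simp] theorem pw_mul (x y : Alg) :
    pw (x * y) = crossProduct (pv x) (pu y) - crossProduct (pv y) (pu x) := rfl
@[simp] theorem pv_add (x y : Alg) : pv (x + y) = pv x + pv y := rfl
@[simp] theorem pa_add (x y : Alg) : pa (x + y) = pa x + pa y := rfl
@[simp] theorem pu_add (x y : Alg) : pu (x + y) = pu x + pu y := rfl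
@[simp] theorem pw_add (x y : Alg) : pw (x + y) = pw x + pw y := rfl
@[simp] theorem pv_zero : pv 0 = 0 := rfl
@[simp] theorem pa_zero : pa 0 = 0 := rfl
@[simp] theorem pu_zero : pu 0 = 0 := rfl
@[simp] theorem pw_zero : pw 0 = 0 := rfl
@[simp] theorem pv_smul (c : ℚ) (x : Alg) : pv (c • x) = c • pv x := rfl
@[simp] theorem pa_smul (c : ℚ) (x : Alg) : pa (c • x) = c * pa x := rfl
@[simp] theorem pu_smul (c : ℚ) (x : Alg) : pu (c • x) = c • pu x := rfl
@[simp] theorem pw_smul (c : ℚ) (x : Alg) : pw (c • x) = c • pw x := rfl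

instance : NonUnitalNonAssocRing Alg :=
  { (inferInstance : AddCommGroup Alg), (inferInstance : Mul Alg) with
    left_distrib := by
      intro x y z
      apply ext'
      · simp
      · simp [dotProduct_add, add_dotProduct]; ring
      · simp [add_smul, smul_add]; abel
      · simp [map_add]; abel
    right_distrib := by
      intro x y z
      apply ext'
      · simp
      · simp [dotProduct_add, add_dotProduct]; ring
      · simp [add_smul, smul_add]; abel
      · simp [map_add]; abel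
    zero_mul := by
      intro x
      apply ext' <;> simp
    mul_zero := by
      intro x
      apply ext' <;> simp }

theorem smul_mul' (c : ℚ) (x y : Alg) : (c • x) * y = c • (x * y) := by
  apply ext'
  · simp
  · simp [mul_sub]
  · simp [smul_sub, smul_smul, mul_comm]
  · simp [smul_sub]

theorem mul_smul' (c : ℚ) (x y : Alg) : x * (c • y) = c • (x * y) := by
  apply ext'
  · simp
  · simp [mul_sub]
  · simp [smul_sub, smul_smul, mul_comm]
  · simp [smul_sub]

instance : IsScalarTower ℚ Alg Alg := ⟨fun c x y => smul_mul' c x y⟩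
instance : SMulCommClass ℚ Alg Alg := ⟨fun c x y => (mul_smul' c x y).symm⟩

theorem mul_self (x : Alg) : x * x = 0 := by
  apply ext' <;> simp

/-- The filtration attached to two vectors `p`, `q`. -/
def Lev (p q : Fin 3 → ℚ) (k : ℕ) (z : Alg) : Prop :=
  pv z = 0 ∧ (∃ s t : ℚ, pu z = s • p + t • q) ∧ (2 ≤ k → ∃ r : ℚ, pw z = r • crossProduct p q) ∧
    (3 ≤ k → pa z = 0) ∧ (4 ≤ k → pu z = 0) ∧ (5 ≤ k → pw z = 0)

theorem lev_neg {p q : Fin 3 → ℚ} {k : ℕ} {z z' : Alg} (h : Lev p q k z) (hz : z' + z = 0) :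
    Lev p q k z' := by
  have e : z' = (-1 : ℚ) • z := by
    rw [neg_one_smul]; exact eq_neg_of_add_eq_zero_left hz
  obtain ⟨h1, ⟨s, t, h2⟩, h3, h4, h5, h6⟩ := h
  subst e
  refine ⟨by simp only [pv_smul, h1, smul_zero], ⟨-s, -t, ?_⟩, fun hk => ?_, fun hk => ?_,
    fun hk => ?_, fun hk => ?_⟩
  · rw [pu_smul, h2]; simp [add_comm]
  · obtain ⟨r, hr⟩ := h3 hk
    exact ⟨-r, by rw [pw_smul, hr]; simp⟩
  · rw [pa_smul, h4 hk]; simp
  · rw [pu_smul, h5 hk]; simp
  · rw [pw_smul, h6 hk]; simp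

theorem anti (x y : Alg) : x * y + y * x = 0 := by
  apply ext' <;> simp

theorem lev_step {p q : Fin 3 → ℚ} {k : ℕ} {x z : Alg} (hx : pv x = p ∨ pv x = q)
    (h : Lev p q k z) : Lev p q (k + 1) (x * z) := by
  obtain ⟨h1, ⟨s, t, h2⟩, h3, h4, h5, h6⟩ := h
  refine ⟨by simp, ?_, fun hk => ?_, fun hk => ?_, fun hk => ?_, fun hk => ?_⟩
  · rcases hx with hx | hx
    · exact ⟨pa z, 0, by simp [h1, hx]⟩
    · exact ⟨0, pa z, by simp [h1, hx]⟩
  · rcases hx with hx | hx
    · exact ⟨t, by simp [h1, hx, h2]⟩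
    · refine ⟨-s, ?_⟩
      simp only [pw_mul, h1, hx, h2, map_add, map_smul, cross_self, map_zero, smul_zero,
        add_zero, LinearMap.zero_apply, sub_zero]
      rw [← cross_anticomm p q, smul_neg, neg_smul]
  · obtain ⟨r, hr⟩ := h3 (by omega)
    rcases hx with hx | hx
    · simp [h1, hx, hr]
    · simp [h1, hx, hr]
  · simp [h1, h4 (by omega)]
  · simp [h1, h5 (by omega)]

theorem lev_zero (p q : Fin 3 → ℚ) (k : ℕ) : Lev p q k 0 :=
  ⟨rfl, ⟨0, 0, by simp⟩, fun _ => ⟨0, by simp⟩, fun _ => rfl, fun _ => rfl, fun _ => rfl⟩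

theorem gen_or (x : Fin 2 → Alg) (i : Fin 2) : pv (x i) = pv (x 0) ∨ pv (x i) = pv (x 1) := by
  fin_cases i
  · exact Or.inl rfl
  · exact Or.inr rfl

theorem lev_word (x : Fin 2 → Alg) (w : FreeMagma (Fin 2)) :
    (∃ i, w = FreeMagma.of i) ∨
      Lev (pv (x 0)) (pv (x 1)) (w.length - 1) (FreeMagma.lift x w) := by
  induction w using FreeMagma.recOnMul with
  | ih1 i => exact Or.inl ⟨i, rfl⟩
  | ih2 w1 w2 h1 h2 =>
    right
    have hl : (w1 * w2).length = w1.length + w2.length := rfl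
    have p1 : 0 < w1.length := FreeMagma.length_pos w1
    have p2 : 0 < w2.length := FreeMagma.length_pos w2
    rw [map_mul, hl]
    rcases h1 with ⟨i, rfl⟩ | h1
    · rcases h2 with ⟨j, rfl⟩ | h2
      · simp only [FreeMagma.lift_of]
        have e : (FreeMagma.of i).length + (FreeMagma.of j).length - 1 = 1 := rfl
        rw [e]
        refine ⟨by simp, ?_, fun hk => by omega, fun hk => by omega, fun hk => by omega,
          fun hk => by omega⟩
        rcases gen_or x i with hi | hi <;> rcases gen_or x j with hj | hj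
        · exact ⟨pa (x j) - pa (x i), 0, by simp [hi, hj, sub_smul]⟩
        · exact ⟨pa (x j), - pa (x i), by simp [hi, hj, sub_eq_add_neg]⟩
        · exact ⟨- pa (x i), pa (x j), by simp [hi, hj, sub_eq_neg_add]⟩
        · exact ⟨0, pa (x j) - pa (x i), by simp [hi, hj, sub_smul]⟩
      · have e : (FreeMagma.of i).length + w2.length - 1 = (w2.length - 1) + 1 := by
          have : (FreeMagma.of i).length = 1 := rfl
          omega
        rw [e, FreeMagma.lift_of]
        exact lev_step (gen_or x i) h2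
    · rcases h2 with ⟨j, rfl⟩ | h2
      · have e : w1.length + (FreeMagma.of j).length - 1 = (w1.length - 1) + 1 := by
          have : (FreeMagma.of j).length = 1 := rfl
          omega
        rw [e, FreeMagma.lift_of]
        exact lev_neg (lev_step (gen_or x j) h1) (anti _ _)
      · have e : FreeMagma.lift x w1 * FreeMagma.lift x w2 = 0 := by
          apply ext' <;> simp [h1.1, h2.1]
        rw [e]
        exact lev_zero _ _ _

theorem two_nil (x : Fin 2 → Alg) (w : FreeMagma (Fin 2)) (hw : 6 ≤ w.length) :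
    FreeMagma.lift x w = 0 := by
  rcases lev_word x w with ⟨i, rfl⟩ | h
  · have : (FreeMagma.of i).length = 1 := rfl
    omega
  · obtain ⟨h1, -, -, h4, h5, h6⟩ := h
    exact ext' h1 (h4 (by omega)) (h5 (by omega)) (h6 (by omega))

def gens : Fin 4 → Alg :=
  ![mk ![1, 0, 0] 0 0 0, mk ![0, 1, 0] 0 0 0, mk ![0, 0, 1] 0 0 0, mk 0 1 0 0]

def word : ℕ → FreeMagma (Fin 4)
  | 0 => FreeMagma.of 3
  | k + 1 => FreeMagma.of 0 * (FreeMagma.of 1 * (FreeMagma.of 2 * word k))

theorem word_length (k : ℕ) : k ≤ (word k).length := by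
  induction k with
  | zero => exact Nat.zero_le _
  | succ k ih =>
    have : (word (k + 1)).length = 1 + (1 + (1 + (word k).length)) := rfl
    omega

theorem word_val (k : ℕ) : FreeMagma.lift gens (word k) = mk 0 1 0 0 := by
  induction k with
  | zero => rfl
  | succ k ih =>
    simp only [word, map_mul, FreeMagma.lift_of, ih]
    apply ext'
    · rfl
    · simp only [pa_mul, pv_mul, pw_mul, pu_mul]
      simp [gens, mk, pv, pa, pu, pw, cross_apply, dotProduct, Fin.sum_univ_three]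
    · simp only [pa_mul, pv_mul, pw_mul, pu_mul]
      simp [gens, mk, pv, pa, pu, pw, cross_apply, dotProduct, Fin.sum_univ_three]
    · simp only [pa_mul, pv_mul, pw_mul, pu_mul]
      simp [gens, mk, pv, pa, pu, pw, cross_apply, dotProduct, Fin.sum_univ_three]

theorem one_ne : mk 0 1 0 0 ≠ 0 := by
  intro h
  have : (1 : ℚ) = 0 := congrArg pa h
  exact one_ne_zero this

theorem lift_map {A : Type} [Mul A] (v : ℕ → A) (w : FreeMagma (Fin 2)) :
    FreeMagma.lift v (FreeMagma.map (fun i : Fin 2 => (i : ℕ)) w) =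
      FreeMagma.lift (fun i : Fin 2 => v i) w := by
  induction w using FreeMagma.recOnMul with
  | ih1 i => simp
  | ih2 w1 w2 h1 h2 => simp [map_mul, h1, h2]

theorem liftMagma_single {A : Type} [NonUnitalNonAssocRing A] [Module ℚ A]
    [IsScalarTower ℚ A A] [SMulCommClass ℚ A A] (f : FreeMagma ℕ →ₙ* A) (w : FreeMagma ℕ) :
    MonoidAlgebra.liftMagma ℚ f (MonoidAlgebra.single w (1 : ℚ)) = f w := by
  have := DFunLike.congr_fun ((MonoidAlgebra.liftMagma ℚ).symm_apply_apply f) w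
  simpa using this

end Pool.Agent.H550Z.AntiNil
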